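import Pool.Agent.helper81.DI.SpecA

/-!
Project di (MP_baa4d7_al), module A7: radical chains and all chains.
-/

set_option autoImplicit false

namespace Pool.Agent.DI

open Pool.Agent.helper58.DC

theorem A7_inf {Γ : Type} [Group Γ] (A B : Subgroup Γ) (x : Γ) (hA : x ∈ nz A) (hB : x ∈ nz B) :
    x ∈ nz (A ⊓ B) := by
  rw [Subgroup.mem_normalizer_iff] at hA hB ⊢
  intro h
  have h1 := hA h
  have h2 := hB h
  show h ∈ A ⊓ B ↔ x * h * x⁻¹ ∈ A ⊓ B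
  rw [Subgroup.mem_inf, Subgroup.mem_inf, h1, h2]

theorem A7 (h2 : A2_stmt) (h3 : A3_stmt) (h4 : A4_stmt) (h5 : A5_stmt) (h6 : A6_stmt) : A7_stmt := by
  intro Γ _ _ p _ L
  induction hn : Nat.card L using Nat.strong_induction_on generalizing L with
  | _ n ih =>
    intro P₀ M g hP hM
    obtain ⟨hPL, hPp, -, -, -⟩ := (h2 Γ p L).2 P₀ hP
    rw [h6 Γ p L P₀ M g hP, h5 Γ p L P₀ M g hPp hPL]
    congr 1
    have hnz : ∀ P₁ : Subgroup Γ, (M ⊓ nz P₀) ⊓ nz P₁ ≤ nz (L ⊓ nz P₁) := by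
      intro P₁ x hx
      obtain ⟨hx1, hx2⟩ := Subgroup.mem_inf.1 hx
      exact A7_inf _ _ x (hM hx1) (Subgroup.le_normalizer hx2)
    have e1 : ∑ᶠ P₁ ∈ {P₁ : Subgroup Γ | P₀ < P₁ ∧ P₁ ≤ L ∧ IsOp p (L ⊓ nz P₁) P₁},
        rSum p (L ⊓ nz P₁) (M ⊓ nz P₀) g =
        ∑ᶠ P₁ ∈ {P₁ : Subgroup Γ | P₀ < P₁ ∧ P₁ ≤ L ∧ IsOp p (L ⊓ nz P₁) P₁},
        cSum p L P₁ (M ⊓ nz P₀) g := by
      refine finsum_mem_congr rfl fun P₁ hP₁ => ?_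
      obtain ⟨q1, q2, q3⟩ := hP₁
      have hlt : Nat.card (L ⊓ nz P₁ : Subgroup Γ) < n := by
        rw [← hn]
        refine lt_of_le_of_ne (Subgroup.card_le_of_le inf_le_left) fun heq => ?_
        have h7 : L ⊓ nz P₁ = L := Subgroup.eq_of_le_of_card_ge inf_le_left heq.ge
        have h8 : L ≤ nz P₁ := inf_eq_left.1 h7
        have h9 := (h2 Γ p (L ⊓ nz P₁)).2 P₁ q3
        have h10 : P₁ ≤ P₀ := hP.2 ⟨q2, h9.2.1, h8⟩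
        exact absurd h10 (not_le_of_gt q1)
      rw [ih _ hlt (L ⊓ nz P₁) rfl P₁ (M ⊓ nz P₀) g q3 (hnz P₁), ← h3]
    rw [e1]
    refine finsum_mem_inter_support_eq _ _ _ ?_
    ext P₁
    constructor
    · rintro ⟨⟨q1, q2, q3⟩, q4⟩
      exact ⟨⟨q1, q2, ((h2 Γ p (L ⊓ nz P₁)).2 P₁ q3).2.1⟩, q4⟩
    · rintro ⟨⟨q1, q2, q3⟩, q4⟩
      refine ⟨⟨q1, q2, ?_⟩, q4⟩
      obtain ⟨Y, hY⟩ := (h2 Γ p (L ⊓ nz P₁)).1
      obtain ⟨y1, y2, y3, y4, -⟩ := (h2 Γ p (L ⊓ nz P₁)).2 Y hY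
      have h7 : P₁ ≤ Y := hY.2 ⟨le_inf q2 Subgroup.le_normalizer, q3, inf_le_right⟩
      by_cases hYP : Y ≤ P₁
      · have h8 : Y = P₁ := le_antisymm hYP h7
        rw [h8] at hY
        exact hY
      · exfalso
        apply q4
        show cSum p L P₁ (M ⊓ nz P₀) g = 0
        rw [h3]
        exact h4 Γ p (L ⊓ nz P₁) P₁ (M ⊓ nz P₀) Y g y2 y1 y3 ((hnz P₁).trans y4) hYP

end Pool.Agent.DI
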